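import Pool.Agent.Q295.LB.Fin
import Pool.Agent.Q295.LB.Psi
import Pool.Agent.Q295.LB.Zst
import Pool.Agent.Q295.LB.Brg
import Pool.Agent.Q209.LB.Chi
import Pool.Agent.Q209.LB.Est
import Pool.Agent.Q209.LB.Pot
import Pool.Agent.Q209.LB.Par
import Pool.Agent.Q272.LB.Cyc

set_option autoImplicit false

/-!
# Local search allocation: the heavily loaded maximum load on cycles

The answer to Q1 of MP_d24e49_pr is negative.  On the cycle with `n` vertices (`R₂` of order
`√(log n)`) the maximum load exceeds `m / n` by at least a constant times `log n`, uniformly in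
`n (log n)^3 ≤ m ≤ n^{3/2}`.  Proof: tilting the law of the birthplaces on one block of length
of order `m / (n log n)`, chosen at random, changes the law of the process by little (chi-square
distance), while a local energy estimate shows that in the tilted block the extra balls stay.
-/

namespace Pool.Agent.Results.MP_d24e49_pr.LogExcessOnCycles

open Filter Topology Pool.Agent.Q295.LB

/-- (1) For every `η > 0` there is `c > 0` such that for all large `n` and all `m` with
`n (log n)^3 ≤ m ≤ n^{3/2}`, the maximum load of the local search allocation of `m` balls on the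
cycle with `n` vertices is at least `m / n + c log n` with probability at least `1 - η`.
(2) Hence there are numbers of balls `m = ω(n R₂)` on the cycles (which are connected and
vertex-transitive, with `R₂ → ∞`) such that for every `C` the probability of
`maximum load ≤ m / n + C R₂` tends to zero.
(3) In particular there are no constants `0 < c ≤ C` for which the two-sided bound of Q1 holds. -/
theorem result :
    (∀ η : ℝ, 0 < η → ∃ c : ℝ, 0 < c ∧ ∃ n₀ : ℕ, ∀ (n : ℕ) [NeZero n] (m : ℕ),
      n₀ ≤ n → (n : ℝ) * Real.log n ^ 3 ≤ m → (m : ℝ) ≤ n * √n →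
      1 - η ≤ prob (cyc n) m {x | (m : ℝ) / n + c * Real.log n ≤ maxLoad x}) ∧
    (∃ m : ℕ → ℕ, (∀ k, (cyc (k + 3)).Connected ∧ VT (cyc (k + 3))) ∧
      Tendsto (fun k => (R2 (cyc (k + 3)) : ℝ)) atTop atTop ∧
      Tendsto (fun k => (m k : ℝ) / (((k + 3 : ℕ) : ℝ) * R2 (cyc (k + 3)))) atTop atTop ∧
      ∀ C : ℝ, Tendsto (fun k => prob (cyc (k + 3)) (m k)
        {x | (maxLoad x : ℝ) ≤ (m k : ℝ) / ((k + 3 : ℕ) : ℝ) + C * R2 (cyc (k + 3))})
        atTop (𝓝 0)) ∧
    ¬ ∃ c C : ℝ, 0 < c ∧ c ≤ C ∧ TwoSided c C := by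
  have hpot : S_POT := Pool.Agent.Q209.LB.pot sli lip inv zst (Pool.Agent.Q209.LB.est sli)
  have hqbb : S_QBB := qbb hpot (tps psi_holds) psi_holds til
  exact final (mai brg Pool.Agent.Q209.LB.chi til hqbb Pool.Agent.Q209.LB.par)
    Pool.Agent.Q272.LB.r2u Pool.Agent.Q272.LB.r2l Pool.Agent.Q272.LB.con

end Pool.Agent.Results.MP_d24e49_pr.LogExcessOnCycles
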